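import Mathlib

/-!
Independence of vectors over a domain modulo an element `g` that is prime or zero.
-/

namespace Pool.Agent.Q80.Tame

variable {R : Type*} [CommRing R] [IsDomain R] {ι : Type*}

/-- `g` generates a prime ideal -/
def PL (g : R) : Prop := ¬ g ∣ 1 ∧ ∀ a b, g ∣ a * b → g ∣ a ∨ g ∣ b

omit [IsDomain R] in
theorem PL.of_prime {g : R} (hg : Prime g) : PL g :=
  ⟨fun h => hg.not_isUnit (isUnit_of_dvd_one h), fun _ _ h => hg.dvd_or_dvd h⟩

theorem PL.zero : PL (0 : R) := by
  refine ⟨fun h => one_ne_zero (zero_dvd_iff.1 h), fun a b h => ?_⟩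
  rw [zero_dvd_iff, mul_eq_zero] at h
  simpa [zero_dvd_iff] using h

/-- the vectors `r j` are independent modulo `g` -/
def Ind (g : R) {t : ℕ} (r : Fin t → ι → R) : Prop :=
  ∀ a : Fin t → R, (∀ i, g ∣ ∑ j, a j * r j i) → ∀ j, g ∣ a j

/-- the vector `s` depends on the vectors `r j` modulo `g` -/
def Dep (g : R) {t : ℕ} (r : Fin t → ι → R) (s : ι → R) : Prop :=
  ∃ (b : R) (a : Fin t → R), ¬ g ∣ b ∧ ∀ i, g ∣ b * s i - ∑ j, a j * r j i

variable {g : R} {t : ℕ} {r : Fin t → ι → R} {s s' : ι → R}

omit [IsDomain R] in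
theorem Dep.zero (hg : PL g) : Dep g r 0 := ⟨1, 0, hg.1, by simp⟩

omit [IsDomain R] in
theorem Dep.add (hg : PL g) (h : Dep g r s) (h' : Dep g r s') : Dep g r (s + s') := by
  obtain ⟨b, a, hb, ha⟩ := h
  obtain ⟨b', a', hb', ha'⟩ := h'
  refine ⟨b * b', fun j => b' * a j + b * a' j, fun h => ?_, fun i => ?_⟩
  · rcases hg.2 _ _ h with h | h
    · exact hb h
    · exact hb' h
  · have e : b * b' * (s + s') i - ∑ j, (b' * a j + b * a' j) * r j i =
        b' * (b * s i - ∑ j, a j * r j i) + b * (b' * s' i - ∑ j, a' j * r j i) := by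
      rw [mul_sub, mul_sub, Finset.mul_sum, Finset.mul_sum]
      simp only [add_mul, Finset.sum_add_distrib, Pi.add_apply]
      have e1 : ∑ x, b' * a x * r x i = ∑ x, b' * (a x * r x i) :=
        Finset.sum_congr rfl fun _ _ => by ring
      have e2 : ∑ x, b * a' x * r x i = ∑ x, b * (a' x * r x i) :=
        Finset.sum_congr rfl fun _ _ => by ring
      rw [e1, e2]
      ring
    rw [e]
    exact dvd_add ((ha i).mul_left _) ((ha' i).mul_left _)

omit [IsDomain R] in
theorem Dep.smul (h : Dep g r s) (x : R) : Dep g r (x • s) := by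
  obtain ⟨b, a, hb, ha⟩ := h
  refine ⟨b, fun j => x * a j, hb, fun i => ?_⟩
  have e : b * (x • s) i - ∑ j, (x * a j) * r j i = x * (b * s i - ∑ j, a j * r j i) := by
    rw [mul_sub, Finset.mul_sum, Pi.smul_apply, smul_eq_mul]
    have e1 : ∑ j, x * a j * r j i = ∑ j, x * (a j * r j i) :=
      Finset.sum_congr rfl fun _ _ => by ring
    rw [e1]
    ring
  rw [e]
  exact (ha i).mul_left _

omit [IsDomain R] in
theorem Dep.of_smul (hg : PL g) {x : R} (hx : ¬ g ∣ x) (h : Dep g r (x • s)) : Dep g r s := by
  obtain ⟨b, a, hb, ha⟩ := h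
  refine ⟨b * x, a, fun h => ?_, fun i => ?_⟩
  · rcases hg.2 _ _ h with h | h
    · exact hb h
    · exact hx h
  · have := ha i
    rw [Pi.smul_apply, smul_eq_mul, ← mul_assoc] at this
    exact this

omit [IsDomain R] in
theorem Ind.snoc (hr : Ind g r) (hs : ¬ Dep g r s) :
    Ind g (Fin.snoc r s : Fin (t + 1) → ι → R) := by
  intro a ha
  have h1 : ∀ i, g ∣ ∑ j : Fin t, a j.castSucc * r j i + a (Fin.last t) * s i := by
    intro i
    have := ha i
    rw [Fin.sum_univ_castSucc] at this
    simpa using this
  have hb : g ∣ a (Fin.last t) := by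
    by_contra hb
    apply hs
    refine ⟨a (Fin.last t), fun j => - a j.castSucc, hb, fun i => ?_⟩
    have := h1 i
    convert this using 1
    simp only [neg_mul, Finset.sum_neg_distrib]
    ring
  have h2 := hr (fun j => a j.castSucc) (by
    intro i
    have := h1 i
    exact (dvd_add_left (hb.mul_right _)).1 this)
  intro j
  refine Fin.lastCases hb (fun j => h2 j) j

omit [IsDomain R] in
theorem Ind.init {r : Fin (t + 1) → ι → R} (h : Ind g r) : Ind g (fun j : Fin t => r j.castSucc) := by
  intro a ha j
  have := h (Fin.snoc a 0) (by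
    intro i
    rw [Fin.sum_univ_castSucc]
    simpa using ha i) j.castSucc
  simpa using this

omit [IsDomain R] in
theorem not_dep_of_ind (h : Ind g (Fin.snoc r s : Fin (t + 1) → ι → R)) :
    ¬ Dep g r s := by
  rintro ⟨b, a, hb, ha⟩
  apply hb
  have := h (Fin.snoc (fun j => - a j) b) (by
    intro i
    rw [Fin.sum_univ_castSucc]
    have := ha i
    convert this using 1
    simp
    ring) (Fin.last t)
  simpa using this

omit [IsDomain R] in
/-- If `r, r0, s` are independent then `r0 + c s` does not depend on `r`. -/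
theorem not_dep_add {r0 : ι → R} {c : R}
    (h : Ind g (Fin.snoc (Fin.snoc r r0 : Fin (t + 1) → ι → R) s : Fin (t + 2) → ι → R)) :
    ¬ Dep g r (r0 + c • s) := by
  rintro ⟨b, a, hb, ha⟩
  apply hb
  have := h (Fin.snoc (Fin.snoc (fun j => - a j) b : Fin (t + 1) → R) (b * c)) (by
    intro i
    rw [Fin.sum_univ_castSucc, Fin.sum_univ_castSucc]
    have := ha i
    convert this using 1
    simp
    ring) (Fin.last t).castSucc
  simpa using this

omit [IsDomain R] in
theorem Dep.congr {g' : R} (h : Associated g g') (hd : Dep g r s) : Dep g' r s := by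
  obtain ⟨b, a, hb, ha⟩ := hd
  exact ⟨b, a, fun h' => hb (h.dvd_iff_dvd_left.2 h'), fun i => h.dvd_iff_dvd_left.1 (ha i)⟩

/-- Saturation: if `r` is independent modulo every prime then its span is saturated. -/
theorem mem_span_of_smul_mem [UniqueFactorizationMonoid R] (hr : ∀ g, Prime g → Ind g r) (a : R)
    (ha : a ≠ 0) (x : ι → R) (h : a • x ∈ Submodule.span R (Set.range r)) :
    x ∈ Submodule.span R (Set.range r) := by
  classical
  revert x
  refine UniqueFactorizationMonoid.induction_on_prime (P := fun a => a ≠ 0 → ∀ x : ι → R,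
    a • x ∈ Submodule.span R (Set.range r) → x ∈ Submodule.span R (Set.range r)) a ?_ ?_ ?_ ha
  · intro h0
    exact absurd rfl h0
  · rintro u hu _ x hx
    obtain ⟨u, rfl⟩ := hu
    have := Submodule.smul_mem _ (↑u⁻¹ : R) hx
    rw [smul_smul, Units.inv_mul, one_smul] at this
    exact this
  · intro a p ha0 hp ih _ x hx
    apply ih ha0
    rw [Submodule.mem_span_range_iff_exists_fun] at hx
    obtain ⟨c, hc⟩ := hx
    have h1 : ∀ j, p ∣ c j := by
      apply hr p hp
      intro i
      have := congrFun hc i
      simp only [Finset.sum_apply, Pi.smul_apply, smul_eq_mul] at this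
      rw [this, mul_assoc]
      exact dvd_mul_right _ _
    choose b hb using h1
    rw [Submodule.mem_span_range_iff_exists_fun]
    refine ⟨b, ?_⟩
    have h2 : p • (∑ j, b j • r j) = p • (a • x) := by
      rw [Finset.smul_sum, smul_smul, ← hc]
      apply Finset.sum_congr rfl
      intro j _
      rw [smul_smul, ← hb j]
    funext i
    have h3 := congrFun h2 i
    simp only [Pi.smul_apply, smul_eq_mul] at h3
    exact mul_left_cancel₀ hp.ne_zero h3

/-- Openness of independence. -/
theorem exists_ne_zero_ind [Finite ι] (hr : Ind 0 r) :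
    ∃ h : R, h ≠ 0 ∧ ∀ g, PL g → ¬ g ∣ h → Ind g r := by
  classical
  have := Fintype.ofFinite ι
  set K := FractionRing R
  set rK : Fin t → (ι → K) := fun j i => algebraMap R K (r j i) with hrK
  have hli : LinearIndependent R rK := by
    rw [Fintype.linearIndependent_iff]
    intro a ha j
    have h1 := hr a (by
      intro i
      rw [zero_dvd_iff]
      have h2 := congrFun ha i
      simp only [Finset.sum_apply, Pi.smul_apply, Pi.zero_apply, hrK] at h2
      apply IsFractionRing.injective R K
      rw [map_sum, map_zero, ← h2]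
      apply Finset.sum_congr rfl
      intro j _
      rw [map_mul, Algebra.smul_def]) j
    rwa [zero_dvd_iff] at h1
  have hliK : LinearIndependent K rK := (LinearIndependent.iff_fractionRing R K).1 hli
  -- a left inverse
  obtain ⟨f, hf⟩ : ∃ f : (ι → K) →ₗ[K] (Fin t → K), ∀ j, f (rK j) = Pi.single j 1 := by
    set u : (Fin t → K) →ₗ[K] (ι → K) := Fintype.linearCombination K rK with hu
    have hker : LinearMap.ker u = ⊥ := by
      rw [LinearMap.ker_eq_bot]
      exact linearIndependent_iff_injective_fintypeLinearCombination.1 hliK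
    obtain ⟨f, hf⟩ := LinearMap.exists_leftInverse_of_injective u hker
    refine ⟨f, fun j => ?_⟩
    have h1 : u (Pi.single j 1) = rK j := by
      rw [hu, Fintype.linearCombination_apply_single, one_smul]
    rw [← h1]
    exact congrArg (fun g : _ →ₗ[K] _ => g (Pi.single j 1)) hf
  -- the matrix of `f` and a common denominator
  set F : Fin t × ι → K := fun x => f (Pi.single x.2 1) x.1 with hF
  obtain ⟨⟨h, hh⟩, hF2⟩ := IsLocalization.exist_integer_multiples_of_finite (nonZeroDivisors R) F
  choose Φ hΦ using hF2
  refine ⟨h, nonZeroDivisors.ne_zero hh, ?_⟩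
  intro g hg hgh a ha l
  -- `Φ` maps `r j` to `h e_j`
  have key : ∀ j l, ∑ i, Φ (l, i) * r j i = if l = j then h else 0 := by
    intro j l
    apply IsFractionRing.injective R K
    have h1 : rK j = ∑ i, rK j i • (Pi.single i 1 : ι → K) := by
      funext i'
      simp [Finset.sum_apply, Pi.single_apply]
    have h2 := congrFun (hf j) l
    rw [h1, map_sum] at h2
    simp only [map_smul, Finset.sum_apply, Pi.smul_apply, smul_eq_mul] at h2
    rw [map_sum]
    have h3 : ∀ i, algebraMap R K (Φ (l, i) * r j i) = algebraMap R K h * (rK j i * f (Pi.single i 1) l) := by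
      intro i
      rw [map_mul, hΦ (l, i), Algebra.smul_def]
      simp only [hF, hrK]
      change algebraMap R K h * _ * _ = _
      ring
    simp only [h3]
    rw [← Finset.mul_sum, h2, Pi.single_apply]
    split_ifs <;> simp
  have h4 : g ∣ ∑ i, Φ (l, i) * ∑ j, a j * r j i :=
    Finset.dvd_sum fun i _ => (ha i).mul_left _
  have h5 : ∑ i, Φ (l, i) * ∑ j, a j * r j i = a l * h := by
    simp only [Finset.mul_sum]
    rw [Finset.sum_comm]
    have : ∀ j, ∑ i, Φ (l, i) * (a j * r j i) = if l = j then a j * h else 0 := by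
      intro j
      have e : ∑ i, Φ (l, i) * (a j * r j i) = a j * ∑ i, Φ (l, i) * r j i := by
        rw [Finset.mul_sum]
        exact Finset.sum_congr rfl fun _ _ => by ring
      rw [e, key]
      split_ifs <;> simp
    simp only [this]
    rw [Finset.sum_ite_eq]
    simp
  rw [h5] at h4
  exact (hg.2 _ _ h4).resolve_right hgh

omit [IsDomain R] in
/-- Nakayama in elementary form. -/
theorem exists_mul_mem_span (hg : PL g) {M : ℕ} (σ : Fin M → ι → R) (D : Submodule R (ι → R))
    (hD : D = Submodule.span R (Set.range r ∪ Set.range σ))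
    (hsat : ∀ w : ι → R, g • w ∈ D → g = 0 ∨ w ∈ D) (hdep : ∀ j, Dep g r (σ j)) :
    ∃ δ : R, ¬ g ∣ δ ∧ ∀ j, δ • σ j ∈ Submodule.span R (Set.range r) := by
  classical
  have hrD : ∀ l, r l ∈ D := fun l => by rw [hD]; exact Submodule.subset_span (Or.inl ⟨l, rfl⟩)
  have hσD : ∀ l, σ l ∈ D := fun l => by rw [hD]; exact Submodule.subset_span (Or.inr ⟨l, rfl⟩)
  choose b a hb ha using hdep
  -- the quotients by `g` lie in `D`
  have hw : ∀ j, ∃ w ∈ D, b j • σ j - ∑ l, a j l • r l = g • w := by
    intro j
    choose w hw using ha j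
    have hw' : b j • σ j - ∑ l, a j l • r l = g • w := by
      funext i
      simp only [Pi.sub_apply, Pi.smul_apply, Finset.sum_apply, smul_eq_mul]
      exact hw i
    have h1 : g • w ∈ D := by
      rw [← hw']
      exact Submodule.sub_mem _ (Submodule.smul_mem _ _ (hσD j))
        (Submodule.sum_mem _ fun l _ => Submodule.smul_mem _ _ (hrD l))
    rcases hsat w h1 with h0 | h2
    · refine ⟨0, Submodule.zero_mem _, ?_⟩
      rw [hw', h0]
      simp
    · exact ⟨w, h2, hw'⟩
  choose w hwD hw using hw
  have hwc : ∀ j, ∃ c : Fin M → R, w j - ∑ k, c k • σ k ∈ Submodule.span R (Set.range r) := by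
    intro j
    have h1 := hwD j
    rw [hD, Submodule.span_union, Submodule.mem_sup] at h1
    obtain ⟨y, hy, z, hz, hyz⟩ := h1
    rw [Submodule.mem_span_range_iff_exists_fun] at hz
    obtain ⟨c, hc⟩ := hz
    refine ⟨c, ?_⟩
    rw [hc, ← hyz, add_sub_cancel_right]
    exact hy
  choose c hc using hwc
  set B : Matrix (Fin M) (Fin M) R := Matrix.diagonal b - g • Matrix.of c with hB
  -- the rows of `B` kill `σ` modulo `span r`
  have h1 : ∀ j, ∑ k, B j k • σ k ∈ Submodule.span R (Set.range r) := by
    intro j
    have e1 : ∑ k, B j k • σ k = b j • σ j - g • ∑ k, c j k • σ k := by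
      simp only [hB, Matrix.sub_apply, Matrix.smul_apply, Matrix.of_apply, sub_smul,
        Finset.sum_sub_distrib, Matrix.diagonal_apply, ite_smul, zero_smul]
      rw [Finset.sum_ite_eq, if_pos (Finset.mem_univ _), Finset.smul_sum]
      congr 1
      apply Finset.sum_congr rfl
      intro k _
      rw [smul_eq_mul, mul_smul]
    have e2 : ∑ k, B j k • σ k = ∑ l, a j l • r l + g • (w j - ∑ k, c j k • σ k) := by
      rw [e1, smul_sub, ← hw j]
      abel
    rw [e2]
    exact Submodule.add_mem _ (Submodule.sum_mem _ fun l _ => Submodule.smul_mem _ _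
      (Submodule.subset_span ⟨l, rfl⟩)) (Submodule.smul_mem _ _ (hc j))
  refine ⟨B.det, ?_, ?_⟩
  · -- determinant modulo `g`
    intro h2
    have h3 : g ∣ B.det - (Matrix.diagonal b).det := by
      have h4 : (Ideal.Quotient.mk (Ideal.span {g})) B.det =
          (Ideal.Quotient.mk (Ideal.span {g})) (Matrix.diagonal b).det := by
        rw [RingHom.map_det, RingHom.map_det]
        congr 1
        ext i j
        simp only [RingHom.mapMatrix_apply, Matrix.map_apply, hB, Matrix.sub_apply,
          Matrix.smul_apply, Matrix.of_apply, smul_eq_mul]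
        rw [Ideal.Quotient.eq, Ideal.mem_span_singleton]
        exact ⟨- c i j, by ring⟩
      rw [Ideal.Quotient.eq, Ideal.mem_span_singleton] at h4
      exact h4
    rw [Matrix.det_diagonal] at h3
    have h4 : g ∣ ∏ i, b i := by
      have := dvd_sub h2 h3
      simpa using this
    have h5 : ∀ s : Finset (Fin M), ¬ g ∣ ∏ i ∈ s, b i := by
      intro s
      induction s using Finset.induction_on with
      | empty => simpa using hg.1
      | insert i s hi ih =>
        rw [Finset.prod_insert hi]
        intro h
        rcases hg.2 _ _ h with h | h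
        · exact hb i h
        · exact ih h
    exact h5 _ h4
  · intro j
    have h2 : B.det • σ j = ∑ i, B.adjugate j i • ∑ k, B i k • σ k := by
      simp only [Finset.smul_sum, smul_smul]
      rw [Finset.sum_comm]
      have h3 : ∀ k, ∑ i, (B.adjugate j i * B i k) • σ k = (if j = k then B.det else 0) • σ k := by
        intro k
        rw [← Finset.sum_smul]
        congr 1
        have := congrFun (congrFun (Matrix.adjugate_mul B) j) k
        rw [Matrix.mul_apply] at this
        rw [this, Matrix.smul_apply, Matrix.one_apply, smul_eq_mul]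
        split_ifs <;> simp
      simp only [h3, ite_smul, zero_smul]
      rw [Finset.sum_ite_eq]
      simp
    rw [h2]
    exact Submodule.sum_mem _ fun i _ => Submodule.smul_mem _ _ (h1 i)

/-- More than `t` elements of a module which is torsion over the span of `t` elements are
dependent. -/
theorem rank_bound (D : Submodule R (ι → R)) {m : ℕ} (e : Fin m → ι → R) (he : Ind 0 e)
    (heD : ∀ j, e j ∈ D) (δ : R) (hδ : δ ≠ 0)
    (h : ∀ x ∈ D, δ • x ∈ Submodule.span R (Set.range r)) : m ≤ t := by
  classical
  set K := FractionRing R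
  set φ : (ι → R) →ₗ[R] (ι → K) := LinearMap.pi fun i => (Algebra.linearMap R K) ∘ₗ LinearMap.proj i with hφ
  have hφa : ∀ x i, φ x i = algebraMap R K (x i) := fun x i => rfl
  have hli : LinearIndependent R (fun j => φ (e j)) := by
    rw [Fintype.linearIndependent_iff]
    intro a ha j
    have h1 := he a (by
      intro i
      rw [zero_dvd_iff]
      have h2 := congrFun ha i
      simp only [Finset.sum_apply, Pi.smul_apply, Pi.zero_apply, hφa] at h2
      apply IsFractionRing.injective R K
      rw [map_sum, map_zero, ← h2]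
      apply Finset.sum_congr rfl
      intro j _
      rw [map_mul, Algebra.smul_def]) j
    rwa [zero_dvd_iff] at h1
  have hliK : LinearIndependent K (fun j => φ (e j)) := (LinearIndependent.iff_fractionRing R K).1 hli
  set V : Submodule K (ι → K) := Submodule.span K (Set.range fun l => φ (r l)) with hV
  have hmem : ∀ j, φ (e j) ∈ V := by
    intro j
    have h1 := h (e j) (heD j)
    rw [Submodule.mem_span_range_iff_exists_fun] at h1
    obtain ⟨c, hc⟩ := h1
    have h2 : (algebraMap R K δ) • φ (e j) ∈ V := by
      have h3 : (algebraMap R K δ) • φ (e j) = ∑ l, (algebraMap R K (c l)) • φ (r l) := by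
        have h4 := congrArg φ hc
        rw [map_sum, map_smul] at h4
        simp only [map_smul] at h4
        rw [← algebraMap_smul K δ (φ (e j))] at h4
        rw [← h4]
        apply Finset.sum_congr rfl
        intro l _
        rw [algebraMap_smul]
      rw [h3]
      exact Submodule.sum_mem _ fun l _ => Submodule.smul_mem _ _ (Submodule.subset_span ⟨l, rfl⟩)
    have hδK : algebraMap R K δ ≠ 0 := by
      rw [Ne, IsFractionRing.to_map_eq_zero_iff]
      exact hδ
    have h3 := Submodule.smul_mem _ (algebraMap R K δ)⁻¹ h2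
    rwa [smul_smul, inv_mul_cancel₀ hδK, one_smul] at h3
  have hli2 : LinearIndependent K (fun j => (⟨φ (e j), hmem j⟩ : V)) := by
    apply LinearIndependent.of_comp V.subtype
    exact hliK
  have hfin : Module.Finite K V := Module.Finite.span_of_finite K (Set.finite_range _)
  have h1 := hli2.fintype_card_le_finrank
  have h2 : Module.finrank K V ≤ Fintype.card (Fin t) := finrank_range_le_card _
  simpa using h1.trans h2

end Pool.Agent.Q80.Tame
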