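import Pool.Agent.Q80.Tame.Step
import Pool.Agent.Helper56.Disc.Socle

/-!
Tameness with respect to minimal Jacobian syzygies.
-/

namespace Pool.Agent.Q80.Tame

open MvPolynomial

variable {N : ℕ} {ι : Type*}

theorem Ind.castLE {R : Type*} [CommRing R] {g : R} {n : ℕ} {b : Fin n → ι → R} (hb : Ind g b)
    {m : ℕ} (h : m ≤ n) : Ind g (fun j : Fin m => b (Fin.castLE h j)) := by
  induction n with
  | zero =>
    obtain rfl : m = 0 := by omega
    intro _ _ j
    exact j.elim0
  | succ n ih =>
    rcases Nat.eq_or_lt_of_le h with h1 | h1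
    · subst h1
      exact hb
    · exact ih hb.init (by omega)

/-- the iteration of the step -/
theorem iterate [Finite ι] (hN : 2 ≤ N) (n m : ℕ)
    (D : Submodule (MvPolynomial (Fin N) ℂ) (ι → MvPolynomial (Fin N) ℂ))
    (hsat : ∀ a : MvPolynomial (Fin N) ℂ, a ≠ 0 → ∀ x, a • x ∈ D → x ∈ D)
    (b : Fin n → ι → MvPolynomial (Fin N) ℂ) (hb : Ind 0 b) (hbD : ∀ j, b j ∈ D)
    (σ : Fin m → ι → MvPolynomial (Fin N) ℂ) (e : Fin m → ℕ) (he : Monotone e)
    (hσ : ∀ j, Hom (e j) (σ j)) (hD : D = Submodule.span (MvPolynomial (Fin N) ℂ) (Set.range σ))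
    (t : ℕ) (ht : t + 1 ≤ n) :
    ∃ (M : ℕ) (r : Fin t → ι → MvPolynomial (Fin N) ℂ) (τ : Fin M → ι → MvPolynomial (Fin N) ℂ)
      (e' : Fin M → ℕ), t + M = m ∧ Monotone e' ∧ (∀ j, Hom (e' j) (τ j)) ∧
      (∀ j, ∃ k, Hom k (r j)) ∧
      D = Submodule.span (MvPolynomial (Fin N) ℂ) (Set.range r ∪ Set.range τ) ∧
      ∀ g, PL g → Ind g r := by
  induction t with
  | zero =>
    refine ⟨m, Fin.elim0, σ, e, by omega, he, hσ, fun j => j.elim0, ?_, ?_⟩
    · rw [hD]
      congr 1
      simp
    · intro g _ a _ j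
      exact j.elim0
  | succ t ih =>
    obtain ⟨M, r, τ, e', hM, he', hτ, hr, hDr, hind⟩ := ih (by omega)
    -- there remains a generator
    rcases Nat.eq_zero_or_pos M with h0 | hpos
    · exfalso
      subst h0
      have hDr' : D = Submodule.span (MvPolynomial (Fin N) ℂ) (Set.range r) := by
        rw [hDr]
        congr 1
        simp
      have := rank_bound (r := r) D b hb hbD 1 one_ne_zero (by
        intro x hx
        rw [one_smul, ← hDr']
        exact hx)
      omega
    · obtain ⟨M, rfl⟩ : ∃ M', M = M' + 1 := ⟨M - 1, by omega⟩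
      -- restrict the independent family
      have hb2 : Ind 0 (fun j : Fin (t + 2) => b (Fin.castLE ht j)) := Ind.castLE hb ht
      obtain ⟨s, hs, hDs, hinds⟩ := step hN D hsat r τ e' (fun j => he' (Fin.le_last j)) hτ hDr hind
        _ hb2 (fun j => hbD _)
      refine ⟨M, _, fun j => τ j.castSucc, fun j => e' j.castSucc, by omega, ?_, fun j => hτ _, ?_,
        hDs, hinds⟩
      · intro i j hij
        exact he' (Fin.castSucc_le_castSucc_iff.2 hij)
      · intro j
        rcases Fin.eq_castSucc_or_eq_last j with ⟨l, rfl⟩ | rfl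
        · simp only [Fin.snoc_castSucc]
          exact hr l
        · simp only [Fin.snoc_last]
          exact ⟨_, hs⟩


/-- The module `D_0(f)` of Jacobian syzygies. -/
def jacSyz (f : MvPolynomial (Fin N) ℂ) :
    Submodule (MvPolynomial (Fin N) ℂ) (Fin N → MvPolynomial (Fin N) ℂ) where
  carrier := {ρ | ∑ j, ρ j * pderiv j f = 0}
  add_mem' := fun {a b} ha hb => by
    have ha' : ∑ j, a j * pderiv j f = 0 := ha
    have hb' : ∑ j, b j * pderiv j f = 0 := hb
    change ∑ j, (a j + b j) * pderiv j f = 0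
    simp only [add_mul, Finset.sum_add_distrib, ha', hb', add_zero]
  zero_mem' := by
    change ∑ j, (0 : MvPolynomial (Fin N) ℂ) * pderiv j f = 0
    simp
  smul_mem' := fun c x hx => by
    have hx' : ∑ j, x j * pderiv j f = 0 := hx
    change ∑ j, (c * x j) * pderiv j f = 0
    simp only [mul_assoc, ← Finset.mul_sum, hx', mul_zero]

theorem mem_jacSyz (f : MvPolynomial (Fin N) ℂ) (ρ : Fin N → MvPolynomial (Fin N) ℂ) :
    ρ ∈ jacSyz f ↔ ∑ j, ρ j * pderiv j f = 0 := Iff.rfl

/-- `ρ` is a minimal set of generators of `D_0(f)`: a family of homogeneous syzygies generating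
`D_0(f)`, with the least possible number of members. -/
def IsMinGens {m : ℕ} (f : MvPolynomial (Fin N) ℂ)
    (ρ : Fin m → Fin N → MvPolynomial (Fin N) ℂ) : Prop :=
  (∀ j, ∃ e, Hom e (ρ j)) ∧ Submodule.span (MvPolynomial (Fin N) ℂ) (Set.range ρ) = jacSyz f ∧
  ∀ (m' : ℕ) (ρ' : Fin m' → Fin N → MvPolynomial (Fin N) ℂ), (∀ j, ∃ e, Hom e (ρ' j)) →
    Submodule.span (MvPolynomial (Fin N) ℂ) (Set.range ρ') = jacSyz f → m ≤ m'

/-- The matrix with rows `(x_0, ..., x_n)`, `ρ_1, ..., ρ_{n-1}`, `ρ`, where `n = k + 1`. -/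
noncomputable def tameMatrix {k : ℕ} (r : Fin k → Fin (k + 2) → MvPolynomial (Fin (k + 2)) ℂ)
    (ρ : Fin (k + 2) → MvPolynomial (Fin (k + 2)) ℂ) :
    Matrix (Fin (k + 2)) (Fin (k + 2)) (MvPolynomial (Fin (k + 2)) ℂ) :=
  Matrix.of (Fin.cons (fun j => X j)
    (Fin.snoc r ρ : Fin (k + 1) → Fin (k + 2) → MvPolynomial (Fin (k + 2)) ℂ))

/-- `V : f = 0` is tame with respect to `ρ_1, ..., ρ_{n-1}` (with `n = k + 1`): the map
`u(a) = ∑ a_j ρ_j` is injective and its image is the kernel of `v`, where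
`v(ρ) = det M(ρ_1, ..., ρ_{n-1}, ρ) / f`. -/
def IsTame {k : ℕ} (f : MvPolynomial (Fin (k + 2)) ℂ)
    (r : Fin k → Fin (k + 2) → MvPolynomial (Fin (k + 2)) ℂ) : Prop :=
  (∀ a : Fin k → MvPolynomial (Fin (k + 2)) ℂ, ∑ j, a j • r j = 0 → a = 0) ∧
  ∀ ρ ∈ jacSyz f, (tameMatrix r ρ).det = 0 ↔
    ρ ∈ Submodule.span (MvPolynomial (Fin (k + 2)) ℂ) (Set.range r)

theorem jacSyz_sat (f : MvPolynomial (Fin N) ℂ) (a : MvPolynomial (Fin N) ℂ) (ha : a ≠ 0)
    (x : Fin N → MvPolynomial (Fin N) ℂ) (h : a • x ∈ jacSyz f) : x ∈ jacSyz f := by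
  rw [mem_jacSyz] at h ⊢
  have h1 : a * ∑ j, x j * pderiv j f = 0 := by
    rw [Finset.mul_sum, ← h]
    apply Finset.sum_congr rfl
    intro j _
    rw [Pi.smul_apply, smul_eq_mul, mul_assoc]
  exact (mul_eq_zero.1 h1).resolve_left ha

/-- `D_0(f)` has rank at least `n`. -/
theorem exists_indep {k : ℕ} (f : MvPolynomial (Fin (k + 1)) ℂ) (l : Fin (k + 1))
    (hl : pderiv l f ≠ 0) : ∃ b : Fin k → Fin (k + 1) → MvPolynomial (Fin (k + 1)) ℂ,
      Ind 0 b ∧ ∀ j, b j ∈ jacSyz f := by
  classical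
  refine ⟨fun j => pderiv l f • Pi.single (l.succAbove j) 1 -
    pderiv (l.succAbove j) f • Pi.single l 1, ?_, ?_⟩
  · intro a ha j
    have h1 := ha (l.succAbove j)
    rw [zero_dvd_iff] at h1 ⊢
    rw [Finset.sum_eq_single j] at h1
    · simp only [Pi.sub_apply, Pi.smul_apply, Pi.single_eq_same, smul_eq_mul, mul_one] at h1
      rw [Pi.single_eq_of_ne (Fin.succAbove_ne l j), mul_zero, sub_zero] at h1
      exact (mul_eq_zero.1 h1).resolve_right hl
    · intro i _ hi
      simp only [Pi.sub_apply, Pi.smul_apply, smul_eq_mul]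
      rw [Pi.single_eq_of_ne (Fin.succAbove_ne l j), Pi.single_eq_of_ne (by
        intro h
        exact hi (Fin.succAbove_right_injective h).symm)]
      ring
    · simp
  · intro j
    rw [mem_jacSyz]
    simp only [Pi.sub_apply, Pi.smul_apply, smul_eq_mul, sub_mul, Finset.sum_sub_distrib, mul_assoc]
    rw [← Finset.mul_sum, ← Finset.mul_sum]
    simp [Pi.single_apply]
    ring

theorem component_mem_jacSyz (f : MvPolynomial (Fin N) ℂ) (d : ℕ) (hf : f.IsHomogeneous d)
    (x : Fin N → MvPolynomial (Fin N) ℂ) (hx : x ∈ jacSyz f) (e : ℕ) :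
    (fun i => homogeneousComponent e (x i)) ∈ jacSyz f := by
  rw [mem_jacSyz] at hx ⊢
  have h1 : ∀ j, homogeneousComponent e (x j) * pderiv j f =
      homogeneousComponent (e + (d - 1)) (x j * pderiv j f) := by
    intro j
    rw [Pool.Agent.Helper56.Disc.homogeneousComponent_mul_of_isHomogeneous _ _ _ _ hf.pderiv]
  simp only [h1]
  rw [← map_sum, hx, map_zero]

theorem exists_gens (f : MvPolynomial (Fin N) ℂ) (d : ℕ) (hf : f.IsHomogeneous d) :
    ∃ (m : ℕ) (ρ : Fin m → Fin N → MvPolynomial (Fin N) ℂ), (∀ j, ∃ e, Hom e (ρ j)) ∧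
      Submodule.span (MvPolynomial (Fin N) ℂ) (Set.range ρ) = jacSyz f := by
  classical
  obtain ⟨s, hs⟩ : (jacSyz f).FG := IsNoetherian.noetherian _
  -- a bound for the degrees
  obtain ⟨B, hB⟩ : ∃ B : ℕ, ∀ x ∈ s, ∀ i, (x i).totalDegree < B := by
    refine ⟨(s.sup fun x => Finset.univ.sup fun i => (x i).totalDegree) + 1, fun x hx i => ?_⟩
    have h1 : (x i).totalDegree ≤ Finset.univ.sup fun i => (x i).totalDegree :=
      Finset.le_sup (f := fun i => (x i).totalDegree) (Finset.mem_univ i)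
    have h2 : (Finset.univ.sup fun i => (x i).totalDegree) ≤
        s.sup fun x => Finset.univ.sup fun i => (x i).totalDegree :=
      Finset.le_sup (f := fun x => Finset.univ.sup fun i => (x i).totalDegree) hx
    omega
  set u : Finset (Fin N → MvPolynomial (Fin N) ℂ) := (s ×ˢ Finset.range B).image
    (fun y => fun i => homogeneousComponent y.2 (y.1 i)) with hu
  have hspan : Submodule.span (MvPolynomial (Fin N) ℂ) (u : Set (Fin N → MvPolynomial (Fin N) ℂ)) =
      jacSyz f := by
    apply le_antisymm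
    · rw [Submodule.span_le]
      intro y hy
      rw [Finset.mem_coe, hu, Finset.mem_image] at hy
      obtain ⟨⟨x, e⟩, hxe, rfl⟩ := hy
      rw [Finset.mem_product] at hxe
      apply component_mem_jacSyz f d hf
      rw [← hs]
      exact Submodule.subset_span hxe.1
    · rw [← hs, Submodule.span_le]
      intro x hx
      have h1 : x = ∑ e ∈ Finset.range B, fun i => homogeneousComponent e (x i) := by
        funext i
        rw [Finset.sum_apply]
        have h2 := hB x hx i
        conv_lhs => rw [← sum_homogeneousComponent (x i)]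
        apply Finset.sum_subset
        · intro y hy
          rw [Finset.mem_range] at hy ⊢
          omega
        · intro y _ hy2
          rw [Finset.mem_range] at hy2
          exact homogeneousComponent_eq_zero _ _ (by omega)
      rw [h1]
      refine Submodule.sum_mem _ fun e he => Submodule.subset_span ?_
      rw [Finset.mem_coe, hu, Finset.mem_image]
      exact ⟨(x, e), Finset.mem_product.2 ⟨hx, he⟩, rfl⟩
  refine ⟨u.card, fun j => (u.equivFin.symm j).1, fun j => ?_, ?_⟩
  · have h1 := (u.equivFin.symm j).2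
    obtain ⟨⟨x, e⟩, _, hxe⟩ := Finset.mem_image.1 h1
    refine ⟨e, fun i => ?_⟩
    have h2 : homogeneousComponent e (x i) = (u.equivFin.symm j).1 i := congrFun hxe i
    change ((u.equivFin.symm j).1 i).IsHomogeneous e
    rw [← h2]
    exact homogeneousComponent_isHomogeneous _ _
  · rw [← hspan]
    congr 1
    ext y
    constructor
    · rintro ⟨j, rfl⟩
      exact (u.equivFin.symm j).2
    · intro hy
      exact ⟨u.equivFin ⟨y, hy⟩, by simp⟩

theorem exists_minGens (f : MvPolynomial (Fin N) ℂ) (d : ℕ) (hf : f.IsHomogeneous d) :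
    ∃ (m : ℕ) (ρ : Fin m → Fin N → MvPolynomial (Fin N) ℂ), IsMinGens f ρ := by
  classical
  have hex := exists_gens f d hf
  obtain ⟨ρ, h1, h2⟩ := Nat.find_spec hex
  refine ⟨Nat.find hex, ρ, h1, h2, fun m' ρ' h1' h2' => ?_⟩
  exact Nat.find_min' hex ⟨ρ', h1', h2'⟩

theorem det_eq_zero_iff {k : ℕ} (r : Fin k → Fin (k + 2) → MvPolynomial (Fin (k + 2)) ℂ)
    (ρ : Fin (k + 2) → MvPolynomial (Fin (k + 2)) ℂ) : (tameMatrix r ρ).det = 0 ↔
    ∃ (α : MvPolynomial (Fin (k + 2)) ℂ) (β : Fin k → MvPolynomial (Fin (k + 2)) ℂ)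
      (γ : MvPolynomial (Fin (k + 2)) ℂ), ¬ (α = 0 ∧ β = 0 ∧ γ = 0) ∧
      ∀ i, α * X i + ∑ j, β j * r j i + γ * ρ i = 0 := by
  rw [← Matrix.exists_vecMul_eq_zero_iff]
  have key : ∀ (v : Fin (k + 2) → MvPolynomial (Fin (k + 2)) ℂ) (i : Fin (k + 2)),
      Matrix.vecMul v (tameMatrix r ρ) i = v 0 * X i + ∑ j : Fin k, v j.castSucc.succ * r j i +
        v (Fin.last k).succ * ρ i := by
    intro v i
    simp only [Matrix.vecMul, dotProduct, tameMatrix, Matrix.of_apply]
    rw [Fin.sum_univ_succ, Fin.sum_univ_castSucc]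
    simp only [Fin.cons_zero, Fin.cons_succ, Fin.snoc_castSucc, Fin.snoc_last]
    ring
  constructor
  · rintro ⟨v, hv0, hv⟩
    refine ⟨v 0, fun j => v j.castSucc.succ, v (Fin.last k).succ, ?_, fun i => ?_⟩
    · rintro ⟨h1, h2, h3⟩
      apply hv0
      funext i
      rcases Fin.eq_zero_or_eq_succ i with rfl | ⟨i, rfl⟩
      · exact h1
      · rcases Fin.eq_castSucc_or_eq_last i with ⟨j, rfl⟩ | rfl
        · exact congrFun h2 j
        · exact h3
    · rw [← key, hv]
      rfl
  · rintro ⟨α, β, γ, hne, h⟩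
    refine ⟨Fin.cons α (Fin.snoc β γ : Fin (k + 1) → MvPolynomial (Fin (k + 2)) ℂ), ?_, ?_⟩
    · intro h0
      apply hne
      refine ⟨?_, ?_, ?_⟩
      · have := congrFun h0 0
        simpa using this
      · funext j
        have := congrFun h0 j.castSucc.succ
        simpa using this
      · have := congrFun h0 (Fin.last k).succ
        simpa using this
    · funext i
      rw [key]
      simpa using h i

theorem isTame_of_ind {k d : ℕ} (f : MvPolynomial (Fin (k + 2)) ℂ) (hd : 1 ≤ d)
    (hf : f.IsHomogeneous d) (hf0 : f ≠ 0)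
    (r : Fin k → Fin (k + 2) → MvPolynomial (Fin (k + 2)) ℂ) (hr : ∀ j, r j ∈ jacSyz f)
    (hind : ∀ g, PL g → Ind g r) : IsTame f r := by
  refine ⟨?_, ?_⟩
  · intro a ha
    funext j
    have := hind 0 PL.zero a (by
      intro i
      rw [zero_dvd_iff]
      have := congrFun ha i
      simpa using this) j
    exact zero_dvd_iff.1 this
  · intro ρ hρ
    rw [det_eq_zero_iff]
    constructor
    · rintro ⟨α, β, γ, hne, h⟩
      -- pair with the gradient
      have h1 : α * ∑ i, X i * pderiv i f = 0 := by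
        have h2 : ∑ i, (α * X i + ∑ j, β j * r j i + γ * ρ i) * pderiv i f = 0 := by
          apply Finset.sum_eq_zero
          intro i _
          rw [h i, zero_mul]
        have h3 : ∑ i, (α * X i + ∑ j, β j * r j i + γ * ρ i) * pderiv i f =
            α * ∑ i, X i * pderiv i f + ∑ j, β j * ∑ i, r j i * pderiv i f +
              γ * ∑ i, ρ i * pderiv i f := by
          simp only [add_mul, Finset.sum_add_distrib, Finset.mul_sum, Finset.sum_mul, mul_assoc]
          congr 2
          rw [Finset.sum_comm]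
        rw [h3] at h2
        have h4 : ∀ j, ∑ i, r j i * pderiv i f = 0 := hr
        simp only [h4, mul_zero, Finset.sum_const_zero, add_zero] at h2
        rw [(mem_jacSyz f ρ).1 hρ, mul_zero, add_zero] at h2
        exact h2
      rw [hf.sum_X_mul_pderiv, nsmul_eq_mul] at h1
      have hα : α = 0 := by
        rcases mul_eq_zero.1 h1 with h2 | h2
        · exact h2
        · exfalso
          rcases mul_eq_zero.1 h2 with h3 | h3
          · have : (C (d : ℂ) : MvPolynomial (Fin (k + 2)) ℂ) = 0 := by simpa using h3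
            rw [C_eq_zero, Nat.cast_eq_zero] at this
            omega
          · exact hf0 h3
      have hγ : γ ≠ 0 := by
        rintro rfl
        apply hne
        refine ⟨hα, ?_, rfl⟩
        funext j
        have := hind 0 PL.zero β (by
          intro i
          rw [zero_dvd_iff]
          have := h i
          rw [hα] at this
          simpa using this) j
        exact zero_dvd_iff.1 this
      apply mem_span_of_smul_mem (fun g hg => hind g (PL.of_prime hg)) γ hγ
      rw [Submodule.mem_span_range_iff_exists_fun]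
      refine ⟨fun j => - β j, ?_⟩
      funext i
      have := h i
      rw [hα] at this
      simp only [Finset.sum_apply, Pi.smul_apply, smul_eq_mul, neg_mul, Finset.sum_neg_distrib]
      linear_combination -this
    · intro hmem
      rw [Submodule.mem_span_range_iff_exists_fun] at hmem
      obtain ⟨c, hc⟩ := hmem
      refine ⟨0, c, -1, ?_, fun i => ?_⟩
      · rintro ⟨_, _, h3⟩
        exact neg_ne_zero.2 one_ne_zero h3
      · have := congrFun hc i
        simp only [Finset.sum_apply, Pi.smul_apply, smul_eq_mul] at this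
        rw [this]
        ring

theorem main {k d : ℕ} (hd : 1 ≤ d) (f : MvPolynomial (Fin (k + 2)) ℂ)
    (hf : f.IsHomogeneous d) (hf0 : f ≠ 0) :
    ∃ (m : ℕ) (ρ : Fin m → Fin (k + 2) → MvPolynomial (Fin (k + 2)) ℂ) (j : Fin k → Fin m),
      IsMinGens f ρ ∧ Function.Injective j ∧ IsTame f (fun i => ρ (j i)) := by
  classical
  obtain ⟨m, σ, hσ1, hσ2, hσ3⟩ := exists_minGens f d hf
  choose e he using hσ1
  -- sort by degree
  set p := Tuple.sort e with hp
  have hmono : Monotone (e ∘ p) := Tuple.monotone_sort e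
  have hrange : Set.range (σ ∘ p) = Set.range σ := p.surjective.range_comp σ
  -- a nonzero partial derivative
  obtain ⟨l, hl⟩ : ∃ l, pderiv l f ≠ 0 := by
    by_contra hcon
    push Not at hcon
    have h1 := hf.sum_X_mul_pderiv
    simp only [hcon, mul_zero, Finset.sum_const_zero] at h1
    rw [nsmul_eq_mul] at h1
    rcases mul_eq_zero.1 h1.symm with h3 | h3
    · have : (C (d : ℂ) : MvPolynomial (Fin (k + 2)) ℂ) = 0 := by simpa using h3
      rw [C_eq_zero, Nat.cast_eq_zero] at this
      omega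
    · exact hf0 h3
  obtain ⟨b, hb, hbD⟩ := exists_indep f l hl
  obtain ⟨M, r, τ, e', hM, _, hτ, hr, hDr, hind⟩ := iterate (by omega) (k + 1) m (jacSyz f)
    (fun a ha x hx => jacSyz_sat f a ha x hx) b hb hbD (σ ∘ p) (e ∘ p) hmono (fun j => he _)
    (by rw [hrange, hσ2]) k le_rfl
  subst hM
  refine ⟨k + M, Fin.append r τ, fun i => Fin.castAdd M i, ⟨?_, ?_, hσ3⟩, ?_, ?_⟩
  · intro j
    refine Fin.addCases (fun i => ?_) (fun i => ?_) j
    · rw [Fin.append_left]
      exact hr i
    · rw [Fin.append_right]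
      exact ⟨_, hτ i⟩
  · rw [hDr]
    congr 1
    ext x
    simp only [Set.mem_union, Set.mem_range]
    constructor
    · rintro ⟨j, rfl⟩
      induction j using Fin.addCases with
      | left i => left; exact ⟨i, (Fin.append_left _ _ _).symm⟩
      | right i => right; exact ⟨i, (Fin.append_right _ _ _).symm⟩
    · rintro (⟨i, rfl⟩ | ⟨i, rfl⟩)
      · exact ⟨_, Fin.append_left _ _ _⟩
      · exact ⟨_, Fin.append_right _ _ _⟩
  · exact Fin.castAdd_injective k M
  · have h1 : (fun i => Fin.append r τ (Fin.castAdd M i)) = r := by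
      funext i
      rw [Fin.append_left]
    rw [h1]
    apply isTame_of_ind f hd hf hf0 r _ hind
    intro j
    rw [hDr]
    exact Submodule.subset_span (Or.inl ⟨j, rfl⟩)

end Pool.Agent.Q80.Tame
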