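import Pool.Agent.Q80.Tame.Indep

/-!
Choice of a general homogeneous combination of generators.
-/

namespace Pool.Agent.Q80.Tame

open MvPolynomial

variable {N : ℕ} {ι : Type*}

/-- all components are forms of degree `e` -/
def Hom (e : ℕ) (x : ι → MvPolynomial (Fin N) ℂ) : Prop := ∀ i, (x i).IsHomogeneous e

/-- coefficient vectors of homogeneous combinations -/
def HH {M : ℕ} (N : ℕ) (e : Fin (M + 1) → ℕ) : Submodule ℂ (Fin (M + 1) → MvPolynomial (Fin N) ℂ) where
  carrier := {h | ∀ j, (h j).IsHomogeneous (e (Fin.last M) - e j)}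
  add_mem' := fun ha hb j => (ha j).add (hb j)
  zero_mem' := fun j => isHomogeneous_zero _ _ _
  smul_mem' := fun c x hx j => by
    have := (isHomogeneous_C (Fin N) c).mul (hx j)
    rw [zero_add, ← smul_eq_C_mul] at this
    exact this

/-- the combination of generators -/
noncomputable def comb {M : ℕ} (σ : Fin (M + 1) → ι → MvPolynomial (Fin N) ℂ) :
    (Fin (M + 1) → MvPolynomial (Fin N) ℂ) →ₗ[ℂ] (ι → MvPolynomial (Fin N) ℂ) where
  toFun h := ∑ j, h j • σ j
  map_add' x y := by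
    simp only [Pi.add_apply, add_smul, Finset.sum_add_distrib]
  map_smul' c x := by
    simp only [Pi.smul_apply, RingHom.id_apply, Finset.smul_sum, smul_assoc]

/-- the subspace of coefficient vectors giving a dependent combination -/
noncomputable def BB {M t : ℕ} (σ : Fin (M + 1) → ι → MvPolynomial (Fin N) ℂ) (e : Fin (M + 1) → ℕ)
    (g : MvPolynomial (Fin N) ℂ) (hg : PL g) (r : Fin t → ι → MvPolynomial (Fin N) ℂ) :
    Submodule ℂ (HH N e) where
  carrier := {h | Dep g r (comb σ h.1)}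
  add_mem' := fun {a b} ha hb => by
    change Dep g r (comb σ (a.1 + b.1))
    rw [map_add]
    exact Dep.add hg ha hb
  zero_mem' := by
    change Dep g r (comb σ 0)
    rw [map_zero]
    exact Dep.zero hg
  smul_mem' := fun c x hx => by
    change Dep g r (comb σ (c • x.1))
    rw [map_smul]
    have h1 : c • comb σ x.1 = (C c : MvPolynomial (Fin N) ℂ) • comb σ x.1 := by
      funext i
      simp [smul_eq_C_mul]
    rw [h1]
    exact Dep.smul hx _

/-- coefficient vectors of combinations without the last generator -/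
noncomputable def ZZ {M : ℕ} (N : ℕ) (e : Fin (M + 1) → ℕ) : Submodule ℂ (HH N e) where
  carrier := {h | coeff 0 (h.1 (Fin.last M)) = 0}
  add_mem' := fun {a b} ha hb => by
    have ha' : coeff 0 (a.1 (Fin.last M)) = 0 := ha
    have hb' : coeff 0 (b.1 (Fin.last M)) = 0 := hb
    change coeff 0 (a.1 (Fin.last M) + b.1 (Fin.last M)) = 0
    rw [coeff_add, ha', hb', add_zero]
  zero_mem' := by
    change coeff 0 (0 : MvPolynomial (Fin N) ℂ) = 0
    rw [coeff_zero]
  smul_mem' := fun c x hx => by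
    have hx' : coeff 0 (x.1 (Fin.last M)) = 0 := hx
    change coeff 0 (c • x.1 (Fin.last M)) = 0
    rw [coeff_smul, hx', smul_zero]

theorem avoid {V : Type*} [AddCommGroup V] [Module ℂ V] (L : List (Submodule ℂ V))
    (h : ∀ W ∈ L, W ≠ ⊤) : ∃ v, ∀ W ∈ L, v ∉ W := by
  classical
  by_contra hcon
  push Not at hcon
  have h1 : ⋃ p ∈ L.toFinset, ((p : Submodule ℂ V) : Set V) = Set.univ := by
    rw [Set.eq_univ_iff_forall]
    intro x
    obtain ⟨W, hW, hx⟩ := hcon x
    simp only [Set.mem_iUnion]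
    exact ⟨W, List.mem_toFinset.2 hW, hx⟩
  have h2 := Subspace.top_mem_of_biUnion_eq_univ (k := ℂ) h1
  exact h ⊤ (List.mem_toFinset.1 h2) rfl

theorem exists_X_not_dvd (hN : 2 ≤ N) (g : MvPolynomial (Fin N) ℂ) (hg : PL g) :
    ∃ l : Fin N, ¬ g ∣ X l := by
  by_contra hcon
  push Not at hcon
  have h0 := hcon ⟨0, by omega⟩
  have h1 := hcon ⟨1, by omega⟩
  have hirr : Irreducible (X ⟨0, by omega⟩ : MvPolynomial (Fin N) ℂ) :=
    (MvPolynomial.X_prime).irreducible
  obtain ⟨u, hu⟩ := h0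
  rcases hirr.isUnit_or_isUnit hu with h | h
  · exact hg.1 h.dvd
  · have h2 : (X ⟨0, by omega⟩ : MvPolynomial (Fin N) ℂ) ∣ X ⟨1, by omega⟩ := by
      rw [hu]
      exact (IsUnit.mul_right_dvd h).2 h1
    rw [MvPolynomial.X_dvd_X] at h2
    · simp at h2

theorem not_dvd_pow {g x : MvPolynomial (Fin N) ℂ} (hg : PL g) (hx : ¬ g ∣ x) (k : ℕ) :
    ¬ g ∣ x ^ k := by
  induction k with
  | zero => simpa using hg.1
  | succ k ih =>
    rw [pow_succ]
    intro h
    rcases hg.2 _ _ h with h | h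
    · exact ih h
    · exact hx h

theorem BB_ne_top (hN : 2 ≤ N) {M t : ℕ} (σ : Fin (M + 1) → ι → MvPolynomial (Fin N) ℂ)
    (e : Fin (M + 1) → ℕ) (g : MvPolynomial (Fin N) ℂ) (hg : PL g)
    (r : Fin t → ι → MvPolynomial (Fin N) ℂ) (j : Fin (M + 1)) (hj : ¬ Dep g r (σ j)) :
    BB σ e g hg r ≠ ⊤ := by
  classical
  intro htop
  obtain ⟨l, hl⟩ := exists_X_not_dvd hN g hg
  set h : Fin (M + 1) → MvPolynomial (Fin N) ℂ := Pi.single j (X l ^ (e (Fin.last M) - e j)) with hh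
  have hmem : h ∈ HH N e := by
    intro k
    by_cases hk : k = j
    · subst hk
      rw [hh, Pi.single_eq_same]
      exact isHomogeneous_X_pow _ _
    · rw [hh, Pi.single_eq_of_ne hk]
      exact isHomogeneous_zero _ _ _
  have h1 : (⟨h, hmem⟩ : HH N e) ∈ BB σ e g hg r := by
    rw [htop]; trivial
  have h2 : Dep g r (comb σ h) := h1
  have h3 : comb σ h = ((X l : MvPolynomial (Fin N) ℂ) ^ (e (Fin.last M) - e j)) • σ j := by
    change ∑ k, h k • σ k = _
    rw [Finset.sum_eq_single j]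
    · rw [hh, Pi.single_eq_same]
    · intro k _ hk
      rw [hh, Pi.single_eq_of_ne hk, zero_smul]
    · simp
  rw [h3] at h2
  exact hj (Dep.of_smul hg (not_dvd_pow hg hl _) h2)

theorem exists_not_dep [Finite ι] {M t m : ℕ} (D : Submodule (MvPolynomial (Fin N) ℂ) (ι → MvPolynomial (Fin N) ℂ))
    (hsat : ∀ a : MvPolynomial (Fin N) ℂ, a ≠ 0 → ∀ x, a • x ∈ D → x ∈ D)
    (r : Fin t → ι → MvPolynomial (Fin N) ℂ) (σ : Fin M → ι → MvPolynomial (Fin N) ℂ)
    (hD : D = Submodule.span (MvPolynomial (Fin N) ℂ) (Set.range r ∪ Set.range σ)) (g : MvPolynomial (Fin N) ℂ)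
    (hg : PL g) (b : Fin m → ι → MvPolynomial (Fin N) ℂ) (hb : Ind 0 b) (hbD : ∀ j, b j ∈ D)
    (hm : t < m) : ∃ j, ¬ Dep g r (σ j) := by
  by_contra hcon
  push Not at hcon
  obtain ⟨δ, hδ, hδσ⟩ := exists_mul_mem_span hg σ D hD (by
    intro w hw
    by_cases h0 : g = 0
    · exact Or.inl h0
    · exact Or.inr (hsat g h0 w hw)) hcon
  have hδ0 : δ ≠ 0 := by
    rintro rfl
    exact hδ (dvd_zero _)
  have h1 := rank_bound (r := r) D b hb hbD δ hδ0 (by
    intro x hx
    rw [hD] at hx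
    induction hx using Submodule.span_induction with
    | mem x hx =>
      rcases hx with ⟨l, rfl⟩ | ⟨l, rfl⟩
      · exact Submodule.smul_mem _ _ (Submodule.subset_span ⟨l, rfl⟩)
      · exact hδσ l
    | zero => rw [smul_zero]; exact Submodule.zero_mem _
    | add x y _ _ hx hy => rw [smul_add]; exact Submodule.add_mem _ hx hy
    | smul a x _ hx => rw [smul_comm]; exact Submodule.smul_mem _ _ hx)
  omega


section choices

variable [Finite ι] {M t : ℕ} {D : Submodule (MvPolynomial (Fin N) ℂ) (ι → MvPolynomial (Fin N) ℂ)}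

theorem ZZ_ne_top (e : Fin (M + 1) → ℕ) : ZZ N e ≠ ⊤ := by
  classical
  intro htop
  set h : Fin (M + 1) → MvPolynomial (Fin N) ℂ := Pi.single (Fin.last M) 1 with hh
  have hmem : h ∈ HH N e := by
    intro k
    by_cases hk : k = Fin.last M
    · subst hk
      rw [hh, Pi.single_eq_same, Nat.sub_self]
      exact isHomogeneous_one _ _
    · rw [hh, Pi.single_eq_of_ne hk]
      exact isHomogeneous_zero _ _ _
  have h1 : (⟨h, hmem⟩ : HH N e) ∈ ZZ N e := by rw [htop]; trivial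
  have h2 : coeff 0 (h (Fin.last M)) = 0 := h1
  rw [hh, Pi.single_eq_same] at h2
  simp at h2

/-- first combination -/
theorem first_choice (hN : 2 ≤ N)
    (r : Fin t → ι → MvPolynomial (Fin N) ℂ) (σ : Fin (M + 1) → ι → MvPolynomial (Fin N) ℂ)
    (e : Fin (M + 1) → ℕ) (j0 : Fin (M + 1)) (hj0 : ¬ Dep 0 r (σ j0)) :
    ∃ h : HH N e, ¬ Dep 0 r (comb σ h.1) ∧ coeff 0 (h.1 (Fin.last M)) ≠ 0 := by
  obtain ⟨v, hv⟩ := avoid [BB σ e 0 PL.zero r, ZZ N e] (by
    intro W hW
    rcases List.mem_cons.1 hW with h | h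
    · rw [h]
      exact BB_ne_top hN σ e 0 PL.zero r j0 hj0
    · rw [List.mem_singleton.1 h]
      exact ZZ_ne_top e)
  exact ⟨v, hv _ List.mem_cons_self, hv _ (List.mem_cons_of_mem _ List.mem_cons_self)⟩

theorem fac_PL (p q : MvPolynomial (Fin N) ℂ) (hq : q ∈ UniqueFactorizationMonoid.factors p) :
    PL q := PL.of_prime (UniqueFactorizationMonoid.prime_of_factor q hq)

open Classical in
/-- total version of `BB` -/
noncomputable def BB' (σ : Fin (M + 1) → ι → MvPolynomial (Fin N) ℂ) (e : Fin (M + 1) → ℕ)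
    (r : Fin t → ι → MvPolynomial (Fin N) ℂ) (g : MvPolynomial (Fin N) ℂ) :
    Submodule ℂ (HH N e) := if h : PL g then BB σ e g h r else ⊥

/-- second combination -/
theorem second_choice (hN : 2 ≤ N)
    (r : Fin t → ι → MvPolynomial (Fin N) ℂ) (r1 : Fin (t + 1) → ι → MvPolynomial (Fin N) ℂ)
    (σ : Fin (M + 1) → ι → MvPolynomial (Fin N) ℂ)
    (e : Fin (M + 1) → ℕ) (j1 : Fin (M + 1)) (hj1 : ¬ Dep 0 r1 (σ j1)) (p0 : MvPolynomial (Fin N) ℂ)
    (hr : ∀ q, PL q → ∃ j, ¬ Dep q r (σ j)) :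
    ∃ h : HH N e, ¬ Dep 0 r1 (comb σ h.1) ∧
      ∀ q ∈ UniqueFactorizationMonoid.factors p0, ¬ Dep q r (comb σ h.1) := by
  classical
  obtain ⟨v, hv⟩ := avoid (BB σ e 0 PL.zero r1 ::
      (UniqueFactorizationMonoid.factors p0).toList.map (BB' σ e r)) (by
    intro W hW
    rcases List.mem_cons.1 hW with h | h
    · rw [h]
      exact BB_ne_top hN σ e 0 PL.zero _ j1 hj1
    · obtain ⟨q, hq, rfl⟩ := List.mem_map.1 h
      have hq' : PL q := fac_PL p0 q (Multiset.mem_toList.1 hq)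
      obtain ⟨j, hj⟩ := hr q hq'
      rw [BB', dif_pos hq']
      exact BB_ne_top hN σ e q _ r j hj)
  refine ⟨v, hv _ List.mem_cons_self, fun q hq hd => ?_⟩
  have hq' : PL q := fac_PL p0 q hq
  have h1 : BB' σ e r q ∈ (UniqueFactorizationMonoid.factors p0).toList.map (BB' σ e r) :=
    List.mem_map.2 ⟨q, Multiset.mem_toList.2 hq, rfl⟩
  have h2 := hv _ (List.mem_cons_of_mem _ h1)
  rw [BB', dif_pos hq'] at h2
  exact h2 hd

omit [Finite ι] in
theorem bad_subsingleton (r : Fin t → ι → MvPolynomial (Fin N) ℂ)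
    (r0 s : ι → MvPolynomial (Fin N) ℂ) (q : MvPolynomial (Fin N) ℂ) (hqp : Prime q)
    (hnb : ¬ (Dep q r r0 ∧ Dep q r s)) :
    {c : ℂ | Dep q r (r0 + (C c : MvPolynomial (Fin N) ℂ) • s)}.Subsingleton := by
  intro x hx y hy
  rw [Set.mem_ofPred_eq] at hx hy
  have hPL := PL.of_prime hqp
  by_contra hxy
  have h2 : Dep q r (((C (x - y)) : MvPolynomial (Fin N) ℂ) • s) := by
    have h3 := hx.add hPL (hy.smul (-1))
    have h4 : r0 + (C x : MvPolynomial (Fin N) ℂ) • s + (-1 : MvPolynomial (Fin N) ℂ) •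
        (r0 + (C y : MvPolynomial (Fin N) ℂ) • s) = ((C (x - y)) : MvPolynomial (Fin N) ℂ) • s := by
      funext i
      simp only [Pi.smul_apply, Pi.add_apply, smul_eq_mul, map_sub]
      ring
    rwa [h4] at h3
  have h3 : Dep q r s := by
    refine Dep.of_smul hPL ?_ h2
    intro h4
    have h5 : IsUnit (C (x - y) : MvPolynomial (Fin N) ℂ) :=
      (isUnit_iff_ne_zero.2 (sub_ne_zero.2 hxy)).map C
    exact hqp.not_isUnit (isUnit_of_dvd_unit h4 h5)
  have h4 : Dep q r r0 := by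
    have h5 := hx.add hPL (h3.smul (-(C x)))
    have h6 : r0 + (C x : MvPolynomial (Fin N) ℂ) • s + (-(C x) : MvPolynomial (Fin N) ℂ) • s = r0 := by
      funext i
      simp only [Pi.smul_apply, Pi.add_apply, smul_eq_mul]
      ring
    rwa [h6] at h5
  exact hnb ⟨h4, h3⟩

omit [Finite ι] in
/-- choice of the constant -/
theorem const_choice (r : Fin t → ι → MvPolynomial (Fin N) ℂ)
    (r0 s : ι → MvPolynomial (Fin N) ℂ) (p2 : MvPolynomial (Fin N) ℂ)
    (hnb : ∀ q, Prime q → ¬ (Dep q r r0 ∧ Dep q r s)) (a0 a1 : ℂ) (ha0 : a0 ≠ 0) :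
    ∃ c : ℂ, a0 + c * a1 ≠ 0 ∧ ∀ q ∈ UniqueFactorizationMonoid.factors p2,
      ¬ Dep q r (r0 + (C c : MvPolynomial (Fin N) ℂ) • s) := by
  classical
  have hfin1 : {c : ℂ | a0 + c * a1 = 0}.Finite := by
    apply Set.Subsingleton.finite
    intro x hx y hy
    rw [Set.mem_ofPred_eq] at hx hy
    have h2 : (x - y) * a1 = 0 := by linear_combination hx - hy
    rcases mul_eq_zero.1 h2 with h3 | h3
    · exact sub_eq_zero.1 h3
    · exfalso
      rw [h3, mul_zero, add_zero] at hx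
      exact ha0 hx
  have hfin2 : (⋃ q ∈ (UniqueFactorizationMonoid.factors p2).toFinset,
        {c : ℂ | Dep q r (r0 + (C c : MvPolynomial (Fin N) ℂ) • s)}).Finite := by
    apply Set.Finite.biUnion (Finset.finite_toSet _)
    intro q hq
    apply Set.Subsingleton.finite
    have hqp : Prime q := UniqueFactorizationMonoid.prime_of_factor q (Multiset.mem_toFinset.1 hq)
    exact bad_subsingleton r r0 s q hqp (hnb q hqp)
  obtain ⟨c, hc⟩ := (hfin1.union hfin2).exists_notMem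
  rw [Set.mem_union, not_or] at hc
  refine ⟨c, hc.1, fun q hq hd => hc.2 ?_⟩
  rw [Set.mem_iUnion₂]
  exact ⟨q, Multiset.mem_toFinset.2 hq, hd⟩

omit [Finite ι] in
/-- generation by the new family -/
theorem generates (r : Fin t → ι → MvPolynomial (Fin N) ℂ)
    (σ : Fin (M + 1) → ι → MvPolynomial (Fin N) ℂ)
    (hD : D = Submodule.span (MvPolynomial (Fin N) ℂ) (Set.range r ∪ Set.range σ))
    (h : Fin (M + 1) → MvPolynomial (Fin N) ℂ) (a : ℂ) (ha : a ≠ 0) (hlast : h (Fin.last M) = C a)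
    (rc : ι → MvPolynomial (Fin N) ℂ) (hrc : rc = ∑ j, h j • σ j) :
    D = Submodule.span (MvPolynomial (Fin N) ℂ)
      (Set.range (Fin.snoc r rc : Fin (t + 1) → ι → MvPolynomial (Fin N) ℂ) ∪
        Set.range fun j : Fin M => σ j.castSucc) := by
  have hsplit : rc = ∑ j : Fin M, h j.castSucc • σ j.castSucc +
      (C a : MvPolynomial (Fin N) ℂ) • σ (Fin.last M) := by
    rw [hrc, Fin.sum_univ_castSucc, ← hlast]
  have hrcD : rc ∈ D := by
    rw [hrc, hD]
    exact Submodule.sum_mem _ fun j _ => Submodule.smul_mem _ _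
      (Submodule.subset_span (Or.inr ⟨j, rfl⟩))
  apply le_antisymm
  · conv_lhs => rw [hD]
    rw [Submodule.span_le]
    rintro _ (⟨l, rfl⟩ | ⟨l, rfl⟩)
    · exact Submodule.subset_span (Or.inl ⟨l.castSucc, by simp⟩)
    · rcases Fin.eq_castSucc_or_eq_last l with ⟨l, rfl⟩ | rfl
      · exact Submodule.subset_span (Or.inr ⟨l, rfl⟩)
      · have h3 : σ (Fin.last M) = (C a⁻¹ : MvPolynomial (Fin N) ℂ) •
            (rc - ∑ j : Fin M, h j.castSucc • σ j.castSucc) := by
          rw [hsplit, add_sub_cancel_left, smul_smul, ← map_mul, inv_mul_cancel₀ ha, map_one,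
            one_smul]
        rw [h3]
        apply Submodule.smul_mem
        apply Submodule.sub_mem
        · exact Submodule.subset_span (Or.inl ⟨Fin.last t, by simp⟩)
        · exact Submodule.sum_mem _ fun j _ => Submodule.smul_mem _ _
            (Submodule.subset_span (Or.inr ⟨j, rfl⟩))
  · rw [Submodule.span_le]
    rintro _ (⟨l, rfl⟩ | ⟨l, rfl⟩)
    · rcases Fin.eq_castSucc_or_eq_last l with ⟨l, rfl⟩ | rfl
      · simp only [Fin.snoc_castSucc]
        rw [hD]
        exact Submodule.subset_span (Or.inl ⟨l, rfl⟩)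
      · simp only [Fin.snoc_last]
        exact hrcD
    · rw [hD]
      exact Submodule.subset_span (Or.inr ⟨_, rfl⟩)

omit [Finite ι] in
/-- adding an element of `D` to the first family -/
theorem generates' (r : Fin t → ι → MvPolynomial (Fin N) ℂ)
    (σ : Fin (M + 1) → ι → MvPolynomial (Fin N) ℂ)
    (hD : D = Submodule.span (MvPolynomial (Fin N) ℂ) (Set.range r ∪ Set.range σ))
    (r0 : ι → MvPolynomial (Fin N) ℂ) (hr0 : r0 ∈ D) :
    D = Submodule.span (MvPolynomial (Fin N) ℂ)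
      (Set.range (Fin.snoc r r0 : Fin (t + 1) → ι → MvPolynomial (Fin N) ℂ) ∪ Set.range σ) := by
  apply le_antisymm
  · conv_lhs => rw [hD]
    rw [Submodule.span_le]
    rintro _ (⟨l, rfl⟩ | ⟨l, rfl⟩)
    · exact Submodule.subset_span (Or.inl ⟨l.castSucc, by simp⟩)
    · exact Submodule.subset_span (Or.inr ⟨l, rfl⟩)
  · rw [Submodule.span_le]
    rintro _ (⟨l, rfl⟩ | ⟨l, rfl⟩)
    · rcases Fin.eq_castSucc_or_eq_last l with ⟨l, rfl⟩ | rfl
      · simp only [Fin.snoc_castSucc]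
        rw [hD]
        exact Submodule.subset_span (Or.inl ⟨l, rfl⟩)
      · simp only [Fin.snoc_last]
        exact hr0
    · rw [hD]
      exact Submodule.subset_span (Or.inr ⟨l, rfl⟩)

end choices

theorem step [Finite ι] (hN : 2 ≤ N) {M t : ℕ}
    (D : Submodule (MvPolynomial (Fin N) ℂ) (ι → MvPolynomial (Fin N) ℂ))
    (hsat : ∀ a : MvPolynomial (Fin N) ℂ, a ≠ 0 → ∀ x, a • x ∈ D → x ∈ D)
    (r : Fin t → ι → MvPolynomial (Fin N) ℂ) (σ : Fin (M + 1) → ι → MvPolynomial (Fin N) ℂ)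
    (e : Fin (M + 1) → ℕ) (he : ∀ j, e j ≤ e (Fin.last M)) (hσ : ∀ j, Hom (e j) (σ j))
    (hD : D = Submodule.span (MvPolynomial (Fin N) ℂ) (Set.range r ∪ Set.range σ))
    (hind : ∀ g, PL g → Ind g r)
    (b : Fin (t + 2) → ι → MvPolynomial (Fin N) ℂ) (hb : Ind 0 b) (hbD : ∀ j, b j ∈ D) :
    ∃ s : ι → MvPolynomial (Fin N) ℂ, Hom (e (Fin.last M)) s ∧
      D = Submodule.span (MvPolynomial (Fin N) ℂ)
        (Set.range (Fin.snoc r s : Fin (t + 1) → ι → MvPolynomial (Fin N) ℂ) ∪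
        Set.range fun j : Fin M => σ j.castSucc) ∧
      ∀ g, PL g → Ind g (Fin.snoc r s : Fin (t + 1) → ι → MvPolynomial (Fin N) ℂ) := by
  obtain ⟨j0, hj0⟩ := exists_not_dep D hsat r σ hD 0 PL.zero b hb hbD (by omega)
  obtain ⟨h0, hdep0, hh0⟩ := first_choice hN r σ e j0 hj0
  generalize hr0 : comb σ h0.1 = r0 at hdep0
  have hr0D : r0 ∈ D := by
    have h2 : comb σ h0.1 = ∑ j, h0.1 j • σ j := rfl
    rw [hD, ← hr0, h2]
    exact Submodule.sum_mem _ fun j _ => Submodule.smul_mem _ _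
      (Submodule.subset_span (Or.inr ⟨j, rfl⟩))
  have hind0 : Ind 0 (Fin.snoc r r0 : Fin (t + 1) → ι → MvPolynomial (Fin N) ℂ) :=
    (hind 0 PL.zero).snoc hdep0
  obtain ⟨p0, hp0, hp0'⟩ := exists_ne_zero_ind hind0
  have hD1 := generates' r σ hD r0 hr0D
  obtain ⟨j1, hj1⟩ := exists_not_dep D hsat _ σ hD1 0 PL.zero b hb hbD (by omega)
  obtain ⟨h1, hdep1, hh1'⟩ := second_choice hN r _ σ e j1 hj1 p0
    (fun q hq => exists_not_dep D hsat r σ hD q hq b hb hbD (by omega))
  generalize hs : comb σ h1.1 = s at hdep1 hh1'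
  have hind1 : Ind 0 (Fin.snoc (Fin.snoc r r0 : Fin (t + 1) → ι → MvPolynomial (Fin N) ℂ) s :
      Fin (t + 2) → ι → MvPolynomial (Fin N) ℂ) := hind0.snoc hdep1
  obtain ⟨p2, hp2, hp2'⟩ := exists_ne_zero_ind hind1
  have hnb : ∀ q, Prime q → ¬ (Dep q r r0 ∧ Dep q r s) := by
    rintro q hq ⟨d0, d1⟩
    by_cases hqp : q ∣ p0
    · obtain ⟨q', hq', hass⟩ := UniqueFactorizationMonoid.exists_mem_factors_of_dvd hp0
        hq.irreducible hqp
      exact hh1' q' hq' (d1.congr hass)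
    · exact not_dep_of_ind (hp0' q (PL.of_prime hq) hqp) d0
  obtain ⟨c, hc1, hc2⟩ := const_choice r r0 s p2 hnb _ (coeff 0 (h1.1 (Fin.last M))) hh0
  generalize hrc : r0 + (C c : MvPolynomial (Fin N) ℂ) • s = rc at hc2
  generalize hhcv : (fun j => h0.1 j + C c * h1.1 j) = hcv
  have hcvj : ∀ j, hcv j = h0.1 j + C c * h1.1 j := fun j => by rw [← hhcv]
  have hrc' : rc = ∑ j, hcv j • σ j := by
    rw [← hrc, ← hr0, ← hs]
    change ∑ j, h0.1 j • σ j + (C c : MvPolynomial (Fin N) ℂ) • ∑ j, h1.1 j • σ j = _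
    rw [Finset.smul_sum, ← Finset.sum_add_distrib]
    apply Finset.sum_congr rfl
    intro j _
    rw [smul_smul, ← add_smul, hcvj]
  have hcvh : ∀ j, (hcv j).IsHomogeneous (e (Fin.last M) - e j) := by
    intro j
    have h2 := (isHomogeneous_C (Fin N) c).mul (h1.2 j)
    rw [zero_add] at h2
    rw [hcvj]
    exact (h0.2 j).add h2
  have hlast : hcv (Fin.last M) = C (coeff 0 (hcv (Fin.last M))) := by
    have h2 := hcvh (Fin.last M)
    rw [Nat.sub_self] at h2
    exact MvPolynomial.totalDegree_eq_zero_iff_eq_C.1 (Nat.le_zero.1 h2.totalDegree_le)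
  have hne : coeff 0 (hcv (Fin.last M)) ≠ 0 := by
    rw [hcvj, coeff_add, coeff_C_mul]
    exact hc1
  refine ⟨rc, ?_, generates r σ hD hcv _ hne hlast rc hrc', ?_⟩
  · intro i
    rw [hrc', Finset.sum_apply]
    refine IsHomogeneous.sum _ _ _ fun j _ => ?_
    rw [Pi.smul_apply, smul_eq_mul]
    have h2 := (hcvh j).mul (hσ j i)
    rwa [Nat.sub_add_cancel (he j)] at h2
  · intro g hg
    apply (hind g hg).snoc
    by_cases hg0 : g = 0
    · subst hg0
      rw [← hrc]
      exact not_dep_add hind1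
    · have hgp : Prime g := ⟨hg0, fun hu => hg.1 hu.dvd, hg.2⟩
      by_cases hgp2 : g ∣ p2
      · obtain ⟨q, hq, hass⟩ := UniqueFactorizationMonoid.exists_mem_factors_of_dvd hp2
          hgp.irreducible hgp2
        intro hd
        exact hc2 q hq (hd.congr hass)
      · rw [← hrc]
        exact not_dep_add (hp2' g hg hgp2)

end Pool.Agent.Q80.Tame
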